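import Pool.Agent.H66.KN.CircleLike
import Pool.Agent.H66.KN.Grp

/-!
# `MP_267b55_gt`: fibres whose first cohomology has finite rank

Definitions used in the statement:

* (`Pool/Agent/H66/KN/Rank3.lean`) `Inessential g`, for `g : C(K, Circle)`: there is a continuous
  `φ : K → ℝ` with `g x = exp (i φ x)` for all `x`;
  `HasIndep K N n`: there are `g 0, …, g (n - 1) : C(K, Circle)` such that for all integers `m i` and
  all `q : C(K, Circle)`, if `(∏ i, g i ^ m i) * q ^ N` is inessential, then `N` divides every `m i`.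
* (`Pool/Agent/H66/KN/CircleLike.lean`) `InvLim E p`: the inverse limit of the spaces `E n` with the
  bonding maps `p n : E (n + 1) → E n`.
* (`Pool/Agent/H66/KN/Htp.lean`) `IsNR P`: `P` is a retract of an open subset `W` of `ι → ℝ`, `ι`
  countable (there are continuous `i : P → W`, `r : W → P` with `r (i p) = p`).
* (`Pool/Agent/H66/KN/Grp.lean`) `HasIndepP K P N n`, for a commutative topological group `P`: there are
  `g 0, …, g (n - 1) : C(K, P)` such that for all integers `m i` and all `q : C(K, P)`, if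
  `(∏ i, g i ^ m i) * q ^ N` is null-homotopic, then `N` divides every `m i`.
-/

set_option autoImplicit false

namespace Pool.Agent.Results.MP_267b55_gt.FiniteRankFibres

open Set Topology Pool.Agent.H66.KN

/-- `K` is the common fibre in Knaster's question. -/
def IsCommonFibre (K : Type) [TopologicalSpace K] : Prop :=
  ∃ (X : Type) (_ : MetricSpace X) (_ : CompactSpace X) (_ : ConnectedSpace X) (a b : X)
    (f : X → unitInterval),
    (∀ C : Set X, IsClosed C → IsConnected C → a ∈ C → b ∈ C → C = Set.univ) ∧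
    Continuous f ∧ IsOpenMap f ∧ Function.Surjective f ∧
    (∀ t : unitInterval, IsConnected (f ⁻¹' {t})) ∧
    ∀ x : X, Nonempty ((f ⁻¹' {f x}) ≃ₜ K)

/-- a property of the common fibre holds for a non-meagre set of fibres -/
theorem baire {K : Type} [TopologicalSpace K] (Q : ∀ (L : Type) [TopologicalSpace L], Prop)
    (hQ : ∀ (L : Type) [TopologicalSpace L], (K ≃ₜ L) → Q L) {X : Type} [MetricSpace X]
    {f : X → unitInterval} (hs : Function.Surjective f) (hh : ∀ x : X, Nonempty ((f ⁻¹' {f x}) ≃ₜ K))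
    (hm : IsMeagre {t : unitInterval | t ∈ (univ : Set unitInterval) ∧ Q ↥(f ⁻¹' {t})}) : False := by
  have hall : {t : unitInterval | t ∈ (univ : Set unitInterval) ∧ Q ↥(f ⁻¹' {t})} = univ := by
    rw [Set.eq_univ_iff_forall]
    intro t
    obtain ⟨x, rfl⟩ := hs t
    obtain ⟨e⟩ := hh x
    exact ⟨trivial, hQ _ e.symm⟩
  rw [hall] at hm
  have hd : Dense ((univ : Set unitInterval)ᶜ) := dense_of_mem_residual hm
  rw [compl_univ] at hd
  exact (hd.nonempty).ne_empty rfl

/-- the last number with a decreasing property -/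
theorem last_num {Q : ℕ → Prop} (h1 : Q 1) (h0 : Q 0) (h : ¬ ∀ n, Q n) :
    ∃ n, Q (n + 1) ∧ ¬ Q (n + 2) := by
  classical
  push Not at h
  let k := Nat.find h
  have hk : ¬ Q k := Nat.find_spec h
  have hk0 : k ≠ 0 := by
    intro h; rw [h] at hk; exact hk h0
  have hk1 : k ≠ 1 := by
    intro h; rw [h] at hk; exact hk h1
  obtain ⟨n, hn⟩ : ∃ n, k = n + 2 := ⟨k - 2, by omega⟩
  refine ⟨n, ?_, by rw [← hn]; exact hk⟩
  by_contra hh
  have := Nat.find_min' h hh
  change k ≤ n + 1 at this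
  omega

theorem result :
    -- the parameters whose fibre has maximal finite rank form a meagre set
    (∀ (X : Type) [MetricSpace X] [CompactSpace X] [ConnectedSpace X] (a b : X)
      (f : X → unitInterval),
      (∀ C : Set X, IsClosed C → IsConnected C → a ∈ C → b ∈ C → C = Set.univ) →
      Continuous f → IsOpenMap f → Function.Surjective f →
      (∀ t : unitInterval, IsConnected (f ⁻¹' {t})) →
      ∀ N : ℕ, (N = 0 ∨ N.Prime) → ∀ (V : Set unitInterval), IsOpen V → ∀ n : ℕ,
        (∀ t ∈ V, ¬ HasIndep ↥(f ⁻¹' {t}) N (n + 2)) →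
        IsMeagre {t : unitInterval | t ∈ V ∧ HasIndep ↥(f ⁻¹' {t}) N (n + 1)}) ∧
    -- the rank is well defined
    (∀ (K : Type) [TopologicalSpace K] (N n : ℕ), HasIndep K N (n + 1) → HasIndep K N n) ∧
    -- for a common fibre the rank is zero or infinite
    (∀ (K : Type) [TopologicalSpace K], IsCommonFibre K → ∀ N : ℕ, (N = 0 ∨ N.Prime) →
      HasIndep K N 1 → ∀ n : ℕ, HasIndep K N n) ∧
    (∀ (K : Type) [TopologicalSpace K], IsCommonFibre K → ∀ g : C(K, Circle), ¬ Inessential g →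
      ∀ n : ℕ, HasIndep K 0 n) ∧
    -- the same for maps to commutative topological groups instead of the circle
    (∀ (P : Type) [TopologicalSpace P] [CommGroup P] [IsTopologicalGroup P] [PathConnectedSpace P],
      IsNR P → ∀ N : ℕ, (N = 0 ∨ N.Prime) →
      (∀ (X : Type) [MetricSpace X] [CompactSpace X] [ConnectedSpace X] (a b : X)
        (f : X → unitInterval),
        (∀ C : Set X, IsClosed C → IsConnected C → a ∈ C → b ∈ C → C = Set.univ) →
        Continuous f → IsOpenMap f → Function.Surjective f →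
        (∀ t : unitInterval, IsConnected (f ⁻¹' {t})) →
        ∀ (V : Set unitInterval), IsOpen V → ∀ n : ℕ,
          (∀ t ∈ V, ¬ HasIndepP ↥(f ⁻¹' {t}) P N (n + 2)) →
          IsMeagre {t : unitInterval | t ∈ V ∧ HasIndepP ↥(f ⁻¹' {t}) P N (n + 1)}) ∧
      (∀ (K : Type) [TopologicalSpace K], (∀ n : ℕ, HasIndepP K P N (n + 1) → HasIndepP K P N n) ∧
        (IsCommonFibre K → HasIndepP K P N 1 → ∀ n : ℕ, HasIndepP K P N n))) ∧
    -- the rank does not increase in inverse limits
    (∀ (E : ℕ → Type) [∀ n, TopologicalSpace (E n)] [∀ n, CompactSpace (E n)] [∀ n, T2Space (E n)]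
      (p : ∀ n, E (n + 1) → E n), (∀ n, Continuous (p n)) →
      (∀ n, Function.Surjective (fun x : ↥(InvLim E p) => x.1 n)) → ∀ N r : ℕ,
      (∀ n, ¬ HasIndep (E n) N r) → ¬ HasIndep ↥(InvLim E p) N r) ∧
    -- circle-like continua
    (∀ (p : ℕ → Circle → Circle), (∀ n, Continuous (p n)) →
      (∀ n, Function.Surjective (fun x : ↥(InvLim (fun _ => Circle) p) => x.1 n)) →
      (∀ N : ℕ, (N = 0 ∨ N.Prime) → ¬ HasIndep ↥(InvLim (fun _ => Circle) p) N 2) ∧
      ((∃ g : C(↥(InvLim (fun _ => Circle) p), Circle), ¬ Inessential g) →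
        ¬ IsCommonFibre ↥(InvLim (fun _ => Circle) p))) := by
  have h1 : ∀ (X : Type) [MetricSpace X] [CompactSpace X] [ConnectedSpace X] (a b : X)
      (f : X → unitInterval),
      (∀ C : Set X, IsClosed C → IsConnected C → a ∈ C → b ∈ C → C = Set.univ) →
      Continuous f → IsOpenMap f → Function.Surjective f →
      (∀ t : unitInterval, IsConnected (f ⁻¹' {t})) →
      ∀ N : ℕ, (N = 0 ∨ N.Prime) → ∀ (V : Set unitInterval), IsOpen V → ∀ n : ℕ,
        (∀ t ∈ V, ¬ HasIndep ↥(f ⁻¹' {t}) N (n + 2)) →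
        IsMeagre {t : unitInterval | t ∈ V ∧ HasIndep ↥(f ⁻¹' {t}) N (n + 1)} := by
    intro X _ _ _ a b f hirr hc ho hs hf N hN V hV n hb
    exact meagre_rank ⟨hc, ho, hs, hf, a, b, hirr⟩ hN V hV n hb
  have h2 : ∀ (K : Type) [TopologicalSpace K], IsCommonFibre K → ∀ N : ℕ, (N = 0 ∨ N.Prime) →
      HasIndep K N 1 → ∀ n : ℕ, HasIndep K N n := by
    rintro K _ ⟨X, _, _, _, a, b, f, hirr, hc, ho, hs, hf, hh⟩ N hN hK1
    by_contra hcon
    obtain ⟨n, hn1, hn2⟩ := last_num (Q := fun n => HasIndep K N n) hK1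
      ⟨fun i => i.elim0, fun m q _ i => i.elim0⟩ hcon
    refine baire (K := K) (fun L _ => HasIndep L N (n + 1)) (fun L _ e => hasIndep_homeo e.symm hn1)
      hs hh (h1 X a b f hirr hc ho hs hf N hN univ isOpen_univ n (fun t _ h => ?_))
    obtain ⟨x, rfl⟩ := hs t
    obtain ⟨e⟩ := hh x
    exact hn2 (hasIndep_homeo e.symm h)
  have h3 : ∀ (K : Type) [TopologicalSpace K], IsCommonFibre K → ∀ g : C(K, Circle),
      ¬ Inessential g → ∀ n : ℕ, HasIndep K 0 n := by
    intro K _ hK g hg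
    refine h2 K hK 0 (Or.inl rfl) ?_
    obtain ⟨X, _, _, _, a, b, f, hirr, hc, ho, hs, hf, hh⟩ := hK
    obtain ⟨e⟩ := hh a
    have hcon : ConnectedSpace ↥(f ⁻¹' {f a}) := isConnected_iff_connectedSpace.mp (hf (f a))
    haveI : ConnectedSpace K := e.surjective.connectedSpace e.continuous
    exact hasIndep_one g hg
  refine ⟨h1, fun K _ N n h => hasIndep_mono h, h2, h3, ?_, ?_, ?_⟩
  · intro P _ _ _ _ hP N hN
    have g1 : ∀ (X : Type) [MetricSpace X] [CompactSpace X] [ConnectedSpace X] (a b : X)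
        (f : X → unitInterval),
        (∀ C : Set X, IsClosed C → IsConnected C → a ∈ C → b ∈ C → C = Set.univ) →
        Continuous f → IsOpenMap f → Function.Surjective f →
        (∀ t : unitInterval, IsConnected (f ⁻¹' {t})) →
        ∀ (V : Set unitInterval), IsOpen V → ∀ n : ℕ,
          (∀ t ∈ V, ¬ HasIndepP ↥(f ⁻¹' {t}) P N (n + 2)) →
          IsMeagre {t : unitInterval | t ∈ V ∧ HasIndepP ↥(f ⁻¹' {t}) P N (n + 1)} := by
      intro X _ _ _ a b f hirr hc ho hs hf V hV n hb
      exact meagre_rankP ⟨hc, ho, hs, hf, a, b, hirr⟩ hP hN V hV n hb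
    refine ⟨g1, fun K _ => ⟨fun n h => hasIndepP_mono h, ?_⟩⟩
    rintro ⟨X, _, _, _, a, b, f, hirr, hc, ho, hs, hf, hh⟩ hK1
    by_contra hcon
    obtain ⟨n, hn1, hn2⟩ := last_num (Q := fun n => HasIndepP K P N n) hK1
      ⟨fun i => i.elim0, fun m q _ i => i.elim0⟩ hcon
    refine baire (K := K) (fun L _ => HasIndepP L P N (n + 1)) (fun L _ e => hasIndepP_homeo e.symm hn1)
      hs hh (g1 X a b f hirr hc ho hs hf univ isOpen_univ n (fun t _ h => ?_))
    obtain ⟨x, rfl⟩ := hs t
    obtain ⟨e⟩ := hh x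
    exact hn2 (hasIndepP_homeo e.symm h)
  · intro E _ _ _ p hp hs N r hE
    exact not_hasIndep_lim hp hs hE
  · intro p hp hs
    have h4 : ∀ N : ℕ, (N = 0 ∨ N.Prime) → ¬ HasIndep ↥(InvLim (fun _ => Circle) p) N 2 :=
      fun N hN => not_hasIndep_lim hp hs (fun _ => not_hasIndep_circle hN)
    refine ⟨h4, ?_⟩
    rintro ⟨g, hg⟩ hK
    exact h4 0 (Or.inl rfl) (h3 _ hK g hg 2)

end Pool.Agent.Results.MP_267b55_gt.FiniteRankFibres
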