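import Pool.Agent.H66.KN.Spheres

/-!
# `MP_267b55_gt`: homotopy classes of maps of the fibres

Definitions used in the statement:

* (`Pool/Agent/H66/KN/Htp.lean`) `IsNR P`: `P` is a retract of an open subset `W` of `ι → ℝ`, `ι`
  countable (there are continuous `i : P → W`, `r : W → P` with `r (i p) = p`);
  `HasClasses K P n`: there are `n` pairwise non-homotopic continuous maps `K → P`.
-/

set_option autoImplicit false

namespace Pool.Agent.Results.MP_267b55_gt.HomotopyClasses

open Set Topology Pool.Agent.H66.KN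

/-- `K` is the common fibre in Knaster's question. -/
def IsCommonFibre (K : Type) [TopologicalSpace K] : Prop :=
  ∃ (X : Type) (_ : MetricSpace X) (_ : CompactSpace X) (_ : ConnectedSpace X) (a b : X)
    (f : X → unitInterval),
    (∀ C : Set X, IsClosed C → IsConnected C → a ∈ C → b ∈ C → C = Set.univ) ∧
    Continuous f ∧ IsOpenMap f ∧ Function.Surjective f ∧
    (∀ t : unitInterval, IsConnected (f ⁻¹' {t})) ∧
    ∀ x : X, Nonempty ((f ⁻¹' {f x}) ≃ₜ K)

theorem result :
    -- the parameters whose fibre has the maximal number of classes form a meagre set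
    (∀ (P : Type) [TopologicalSpace P] [PathConnectedSpace P], IsNR P →
      ∀ (X : Type) [MetricSpace X] [CompactSpace X] [ConnectedSpace X] (a b : X)
      (f : X → unitInterval),
      (∀ C : Set X, IsClosed C → IsConnected C → a ∈ C → b ∈ C → C = Set.univ) →
      Continuous f → IsOpenMap f → Function.Surjective f →
      (∀ t : unitInterval, IsConnected (f ⁻¹' {t})) →
      ∀ (V : Set unitInterval), IsOpen V → ∀ n : ℕ,
        (∀ t ∈ V, ¬ HasClasses ↥(f ⁻¹' {t}) P (n + 3)) →
        IsMeagre {t : unitInterval | t ∈ V ∧ HasClasses ↥(f ⁻¹' {t}) P (n + 2)}) ∧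
    -- for a common fibre there is one class or there are infinitely many
    (∀ (K : Type) [TopologicalSpace K], IsCommonFibre K →
      ∀ (P : Type) [TopologicalSpace P] [PathConnectedSpace P], IsNR P →
      HasClasses K P 2 → ∀ n : ℕ, HasClasses K P n) ∧
    (∀ (K P : Type) [TopologicalSpace K] [TopologicalSpace P] (n : ℕ),
      HasClasses K P (n + 1) → HasClasses K P n) ∧
    -- the spheres are possible spaces `P`
    (∀ n : ℕ, IsNR ↥(Metric.sphere (0 : EuclideanSpace ℝ (Fin (n + 2))) 1) ∧
      PathConnectedSpace ↥(Metric.sphere (0 : EuclideanSpace ℝ (Fin (n + 2))) 1)) := by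
  have h1 : ∀ (P : Type) [TopologicalSpace P] [PathConnectedSpace P], IsNR P →
      ∀ (X : Type) [MetricSpace X] [CompactSpace X] [ConnectedSpace X] (a b : X)
      (f : X → unitInterval),
      (∀ C : Set X, IsClosed C → IsConnected C → a ∈ C → b ∈ C → C = Set.univ) →
      Continuous f → IsOpenMap f → Function.Surjective f →
      (∀ t : unitInterval, IsConnected (f ⁻¹' {t})) →
      ∀ (V : Set unitInterval), IsOpen V → ∀ n : ℕ,
        (∀ t ∈ V, ¬ HasClasses ↥(f ⁻¹' {t}) P (n + 3)) →
        IsMeagre {t : unitInterval | t ∈ V ∧ HasClasses ↥(f ⁻¹' {t}) P (n + 2)} := by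
    intro P _ _ hP X _ _ _ a b f hirr hc ho hs hf V hV n hb
    exact meagre_htp ⟨hc, ho, hs, hf, a, b, hirr⟩ hP V hV n hb
  refine ⟨h1, ?_, fun K P _ _ n h => hasClasses_mono h, fun n => ⟨isNR_sphere n, path_sphere n⟩⟩
  rintro K _ ⟨X, _, _, _, a, b, f, hirr, hc, ho, hs, hf, hh⟩ P _ _ hP hK2
  by_contra hcon
  push Not at hcon
  classical
  let k := Nat.find hcon
  have hk : ¬ HasClasses K P k := Nat.find_spec hcon
  have hK1 : HasClasses K P 1 := hasClasses_mono hK2
  have hK0 : HasClasses K P 0 := hasClasses_mono hK1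
  have hk0 : k ≠ 0 := by
    intro h; rw [h] at hk; exact hk hK0
  have hk1 : k ≠ 1 := by
    intro h; rw [h] at hk; exact hk hK1
  have hk2 : k ≠ 2 := by
    intro h; rw [h] at hk; exact hk hK2
  obtain ⟨n, hn⟩ : ∃ n, k = n + 3 := ⟨k - 3, by omega⟩
  have hn1 : HasClasses K P (n + 2) := by
    by_contra h
    have := Nat.find_min' hcon h
    change k ≤ n + 2 at this
    omega
  have hfib : ∀ t : unitInterval, Nonempty (↥(f ⁻¹' {t}) ≃ₜ K) := by
    intro t
    obtain ⟨x, rfl⟩ := hs t
    exact hh x
  have hm := h1 P hP X a b f hirr hc ho hs hf univ isOpen_univ n (fun t _ h => by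
    obtain ⟨e⟩ := hfib t
    rw [hn] at hk
    exact hk (hasClasses_homeo e.symm h))
  have hall : {t : unitInterval | t ∈ (univ : Set unitInterval) ∧ HasClasses ↥(f ⁻¹' {t}) P (n + 2)} =
      univ := by
    rw [Set.eq_univ_iff_forall]
    intro t
    obtain ⟨e⟩ := hfib t
    exact ⟨trivial, hasClasses_homeo e hn1⟩
  rw [hall] at hm
  have hd : Dense ((univ : Set unitInterval)ᶜ) := dense_of_mem_residual hm
  rw [compl_univ] at hd
  exact (hd.nonempty).ne_empty rfl

end Pool.Agent.Results.MP_267b55_gt.HomotopyClasses
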