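import Pool.Agent.H66.KN.Examples

/-!
# `MP_267b55_gt`: fibres with the joining property

Definitions used in the statement:

* (`Pool/Agent/H66/KN/Joining.lean`) `Joining K`: there are a nonempty closed set `F`, an open set `U`
  and a closed set `G ≠ K` with `F ⊆ U ⊆ G` such that every point of `U` lies in a component of `G`
  which meets `F`.
* (`Pool/Agent/H66/KN/Examples.lean`) `Solenoid k`: the inverse limit of circles with the bonding maps
  `z ↦ z ^ (k n)`; `Buckethandle`: the inverse limit of unit intervals with the tent map
  `u ↦ 1 - |2 u - 1|` as bonding maps.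
-/

set_option autoImplicit false

namespace Pool.Agent.Results.MP_267b55_gt.JoinedFibres

open Set Topology Pool.Agent.H66.KN

theorem result :
    -- the parameters whose fibre has the joining property form a meagre set
    (∀ (X : Type) [MetricSpace X] [CompactSpace X] [ConnectedSpace X] (a b : X)
      (f : X → unitInterval),
      (∀ C : Set X, IsClosed C → IsConnected C → a ∈ C → b ∈ C → C = Set.univ) →
      Continuous f → IsOpenMap f → Function.Surjective f →
      (∀ t : unitInterval, IsConnected (f ⁻¹' {t})) →
      IsMeagre {t : unitInterval | Joining ↥(f ⁻¹' {t})}) ∧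
    -- no space with the joining property is the common fibre in Knaster's question
    (∀ (K : Type) [TopologicalSpace K], Joining K →
      ¬ ∃ (X : Type) (_ : MetricSpace X) (_ : CompactSpace X) (_ : ConnectedSpace X) (a b : X)
        (f : X → unitInterval),
        (∀ C : Set X, IsClosed C → IsConnected C → a ∈ C → b ∈ C → C = Set.univ) ∧
        Continuous f ∧ IsOpenMap f ∧ Function.Surjective f ∧
        (∀ t : unitInterval, IsConnected (f ⁻¹' {t})) ∧
        ∀ x : X, Nonempty ((f ⁻¹' {f x}) ≃ₜ K)) ∧
    -- decomposable continua
    (∀ (K : Type) [TopologicalSpace K] [T1Space K],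
      (∃ P R : Set K, IsClosed P ∧ IsConnected P ∧ IsClosed R ∧ IsConnected R ∧ P ∪ R = univ ∧
        P ≠ univ ∧ R ≠ univ) → Joining K) ∧
    -- spaces with a local product structure at one place
    (∀ (K C Y : Type) [TopologicalSpace K] [T2Space K] [TopologicalSpace C] [CompactSpace C]
      [Nonempty C] [TopologicalSpace Y] [T2Space Y] [LocallyCompactSpace Y]
      [LocallyConnectedSpace Y] [NoncompactSpace Y] (e : C × Y → K),
      IsOpenEmbedding e → Joining K) ∧
    -- monotone preimages
    (∀ (K L : Type) [TopologicalSpace K] [CompactSpace K] [TopologicalSpace L] [T2Space L]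
      (p : K → L), Continuous p → (∀ y, IsConnected (p ⁻¹' {y})) → Joining L → Joining K) ∧
    -- solenoids and Knaster's buckethandle
    (∀ k : ℕ → ℕ, (∀ n, k n ≠ 0) → Joining ↥(Solenoid k)) ∧
    Joining ↥Buckethandle := by
  have h1 : ∀ (X : Type) [MetricSpace X] [CompactSpace X] [ConnectedSpace X] (a b : X)
      (f : X → unitInterval),
      (∀ C : Set X, IsClosed C → IsConnected C → a ∈ C → b ∈ C → C = Set.univ) →
      Continuous f → IsOpenMap f → Function.Surjective f →
      (∀ t : unitInterval, IsConnected (f ⁻¹' {t})) →
      IsMeagre {t : unitInterval | Joining ↥(f ⁻¹' {t})} := by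
    intro X _ _ _ a b f hirr hc ho hs hf
    exact meagre_joining ⟨hc, ho, hs, hf, a, b, hirr⟩
  refine ⟨h1, ?_, fun K _ _ h => joining_of_decomposable K h, ?_, ?_, joining_solenoid,
    joining_buckethandle⟩
  · rintro K _ hK ⟨X, _, _, _, a, b, f, hirr, hc, ho, hs, hf, hh⟩
    have hm := h1 X a b f hirr hc ho hs hf
    have hall : {t : unitInterval | Joining ↥(f ⁻¹' {t})} = univ := by
      rw [Set.eq_univ_iff_forall]
      intro t
      obtain ⟨x, rfl⟩ := hs t
      obtain ⟨e⟩ := hh x
      exact joining_of_homeomorph e hK
    rw [hall] at hm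
    have hd : Dense ((univ : Set unitInterval)ᶜ) := dense_of_mem_residual hm
    rw [compl_univ] at hd
    exact (hd.nonempty).ne_empty rfl
  · intro K C Y _ _ _ _ _ _ _ _ _ _ e he
    exact joining_of_product K C Y e he
  · intro K L _ _ _ _ p hp hf hL
    exact joining_of_monotone p hp hf hL

end Pool.Agent.Results.MP_267b55_gt.JoinedFibres
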